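import Mathlib

set_option maxHeartbeats 400000

namespace Pool.Agent.Results.MP_ff748e_nt.Reduce

open Finset

/-- The sum of the positive divisors of `n`. -/
def sig (n : ℕ) : ℕ := ∑ d ∈ n.divisors, d

/-- The denominator of `σ(n) / n` in lowest terms. -/
def a (n : ℕ) : ℕ := n / Nat.gcd n (sig n)

/-- Every `k` with `1 ≤ k ≤ σ(m)` is a sum of distinct positive divisors of `m`. -/
def Practical (m : ℕ) : Prop :=
  0 < m ∧ ∀ k, 1 ≤ k → k ≤ sig m → ∃ S ⊆ m.divisors, ∑ d ∈ S, d = k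

theorem sig_mul {m n : ℕ} (h : m.Coprime n) : sig (m * n) = sig m * sig n := by
  have := (ArithmeticFunction.isMultiplicative_sigma (k := 1)).map_mul_of_coprime h
  simpa only [ArithmeticFunction.sigma_one_apply, sig] using this

theorem le_sig {n : ℕ} (hn : 0 < n) : n ≤ sig n :=
  single_le_sum (f := fun d => d) (fun _ _ => Nat.zero_le _) (Nat.mem_divisors_self n hn.ne')

theorem rep {m : ℕ} (h : Practical m) (k : ℕ) (hk : k ≤ sig m) :
    ∃ S ⊆ m.divisors, ∑ d ∈ S, d = k := by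
  rcases Nat.eq_zero_or_pos k with rfl | h0
  · exact ⟨∅, by simp, by simp⟩
  · exact h.2 k h0 hk

theorem step {m p : ℕ} (hm : Practical m) (hp : p.Prime) (hpm : ¬ p ∣ m) (hle : p ≤ sig m + 1)
    (k : ℕ) : Practical (m * p ^ k) := by
  have hco : ∀ j, m.Coprime (p ^ j) := fun j =>
    (((Nat.Prime.coprime_iff_not_dvd hp).2 hpm).symm).pow_right j
  have hs : ∀ j, sig (m * p ^ j) = sig m * ∑ i ∈ range (j + 1), p ^ i := fun j => by
    rw [sig_mul (hco j)]
    congr 1
    exact Nat.sum_divisors_prime_pow hp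
  induction k with
  | zero => simpa using hm
  | succ k ih =>
    refine ⟨Nat.mul_pos hm.1 (pow_pos hp.pos _), fun x _ hx => ?_⟩
    have hq : p ^ (k + 1) ≤ sig (m * p ^ k) + 1 := by
      obtain ⟨r, rfl⟩ : ∃ r, p = r + 1 := ⟨p - 1, by have := hp.pos; omega⟩
      rw [hs, ← geom_sum_mul_add r (k + 1), mul_comm (sig m)]
      have : r ≤ sig m := by omega
      gcongr
    have hx' : x ≤ sig (m * p ^ k) + p ^ (k + 1) * sig m := by
      rw [hs, sum_range_succ, mul_add, ← hs, mul_comm (sig m)] at hx; exact hx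
    obtain ⟨y, r, hy, hr, hxy⟩ : ∃ y r, y ≤ sig m ∧ r ≤ sig (m * p ^ k) ∧
        x = p ^ (k + 1) * y + r := by
      by_cases hc : x / p ^ (k + 1) ≤ sig m
      · refine ⟨_, x % p ^ (k + 1), hc, ?_, (Nat.div_add_mod _ _).symm⟩
        have := Nat.mod_lt x (pow_pos hp.pos (k + 1))
        omega
      · have h1 := Nat.mul_div_le x (p ^ (k + 1))
        have h2 : p ^ (k + 1) * sig m ≤ p ^ (k + 1) * (x / p ^ (k + 1)) := by gcongr; omega
        exact ⟨sig m, x - p ^ (k + 1) * sig m, le_rfl, by omega, by omega⟩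
    obtain ⟨S, hS, hSy⟩ := rep hm y hy
    obtain ⟨T, hT, hTr⟩ := rep ih r hr
    have hne : m * p ^ (k + 1) ≠ 0 := (Nat.mul_pos hm.1 (pow_pos hp.pos _)).ne'
    refine ⟨S.image (fun d => p ^ (k + 1) * d) ∪ T, ?_, ?_⟩
    · intro d hd
      rcases mem_union.1 hd with hd | hd
      · obtain ⟨e, he, rfl⟩ := mem_image.1 hd
        refine Nat.mem_divisors.2 ⟨?_, hne⟩
        rw [mul_comm m]
        exact Nat.mul_dvd_mul_left _ (Nat.dvd_of_mem_divisors (hS he))
      · refine Nat.mem_divisors.2 ⟨(Nat.dvd_of_mem_divisors (hT hd)).trans ?_, hne⟩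
        exact Nat.mul_dvd_mul_left _ (pow_dvd_pow _ (by omega))
    · rw [sum_union, sum_image, ← mul_sum, hSy, hTr, hxy]
      · intro u _ v _ huv
        exact Nat.eq_of_mul_eq_mul_left (pow_pos hp.pos _) huv
      · rw [disjoint_left]
        intro d hd hdT
        obtain ⟨e, -, rfl⟩ := mem_image.1 hd
        have h1 := (Dvd.intro _ rfl).trans (Nat.dvd_of_mem_divisors (hT hdT))
        rw [pow_succ'] at h1
        exact hpm (Nat.dvd_of_mul_dvd_mul_right (pow_pos hp.pos k) h1)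

theorem pr_one : Practical 1 :=
  ⟨one_pos, fun k h1 h2 => ⟨{1}, by simp, by simp [sig] at h2 ⊢; omega⟩⟩

theorem main (n : ℕ) (hn : 0 < n) (ha : Practical (a n)) (hnp : ¬ Practical n) :
    ∃ L, L ∣ n ∧ Nat.Coprime (n / L) L ∧ 1 < L ∧ Odd L ∧ L ∣ sig L := by
  classical
  let U := n.divisors.filter fun S => Practical S ∧ ∃ L, n = S * L ∧ S.Coprime L
  have hU : U.Nonempty := ⟨1, by simp [U, pr_one, hn.ne']⟩
  obtain ⟨S, hSU, hmax⟩ := exists_max_image U (fun S => S) hU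
  obtain ⟨-, hS, L, hnL, hco⟩ := mem_filter.1 hSU
  have hL0 : L ≠ 0 := by rintro rfl; omega
  have hbig : ∀ p, p.Prime → p ∣ L → sig S + 1 < p := by
    intro p hp hpL
    by_contra hle
    obtain ⟨e, M, hM, hLM⟩ := Nat.exists_eq_pow_mul_and_not_dvd hL0 p hp.ne_one
    have hpS : ¬ p ∣ S := fun h => hp.ne_one (Nat.dvd_one.1 (by
      have := Nat.dvd_gcd h hpL; rwa [hco] at this) )
    have he : e ≠ 0 := by rintro rfl; simp at hLM; exact hM (hLM ▸ hpL)
    have h1 : S * p ^ e ∈ U := by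
      refine mem_filter.2 ⟨Nat.mem_divisors.2 ⟨⟨M, by rw [hnL, hLM, mul_assoc]⟩, hn.ne'⟩,
        step hS hp hpS (by omega) e, M, by rw [hnL, hLM, mul_assoc], ?_⟩
      refine Nat.Coprime.mul_left (hco.coprime_dvd_right ⟨p ^ e, by rw [hLM, mul_comm]⟩) ?_
      exact ((Nat.Prime.coprime_iff_not_dvd hp).2 hM).pow_left e
    have h2 := hmax _ h1
    have h3 : 1 < p ^ e := Nat.one_lt_pow he hp.one_lt
    have h4 := hS.1
    nlinarith
  have hsm : ∀ d, 0 < d → d ≤ sig S + 1 → L.Coprime d := fun d hd hle =>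
    Nat.coprime_of_dvd fun p hp h1 h2 => by
      have := hbig p hp h1
      have := Nat.le_of_dvd hd h2
      omega
  have hS1 := le_sig hS.1
  have hS0 := hS.1
  have hg : a n * Nat.gcd n (sig n) = n := Nat.div_mul_cancel (Nat.gcd_dvd_left _ _)
  have hb : L.Coprime (a n) := by
    refine Nat.coprime_of_dvd fun p hp h1 h2 => ?_
    have h3 := hbig p hp h1
    have h4 := Nat.le_of_dvd ha.1 h2
    have h5 := le_sig ha.1
    obtain ⟨T, hT, hsum⟩ := rep ha (sig S + 1) (by omega)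
    have h6 : T ⊆ S.divisors := by
      intro d hd
      have hd0 := Nat.pos_of_mem_divisors (hT hd)
      have hdle : d ≤ ∑ d ∈ T, d := single_le_sum (f := fun d => d) (fun _ _ => Nat.zero_le _) hd
      have hdn : d ∣ S * L := hnL ▸ (Nat.dvd_of_mem_divisors (hT hd)).trans ⟨_, hg.symm⟩
      exact Nat.mem_divisors.2 ⟨(hsm d hd0 (by omega)).symm.dvd_of_dvd_mul_right hdn, hS0.ne'⟩
    have h7 : ∑ d ∈ T, d ≤ sig S := sum_le_sum_of_subset h6
    omega
  have hLn : L ∣ n := ⟨S, by rw [hnL, mul_comm]⟩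
  refine ⟨L, hLn, ?_, ?_, ?_, ?_⟩
  · rw [hnL, Nat.mul_div_cancel _ (Nat.pos_of_ne_zero hL0)]; exact hco
  · by_contra h
    obtain rfl : L = 1 := by omega
    exact hnp (by simpa [hnL] using hS)
  · exact Nat.coprime_two_right.1 (hsm 2 two_pos (by omega))
  · have h1 : L ∣ Nat.gcd n (sig n) := hb.dvd_of_dvd_mul_left (hg.symm ▸ hLn)
    have h2 := h1.trans (Nat.gcd_dvd_right _ _)
    rw [hnL, sig_mul hco] at h2
    exact (hsm (sig S) (by omega) (by omega)).dvd_of_dvd_mul_left h2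

theorem result :
    (∀ n : ℕ, 0 < n → Practical (a n) → ¬ Practical n →
      ∃ L, L ∣ n ∧ Nat.Coprime (n / L) L ∧ 1 < L ∧ Odd L ∧ L ∣ sig L) ∧
    ((∀ n : ℕ, 0 < n → Practical (a n) → Practical n) ↔
      ∀ L : ℕ, 1 < L → Odd L → ¬ L ∣ sig L) := by
  refine ⟨main, fun h L hL hodd hdvd => ?_, fun h n hn ha => ?_⟩
  · have h1 : a L = 1 := by rw [a, Nat.gcd_eq_left hdvd, Nat.div_self (by omega)]
    have h2 := le_sig (n := L) (by omega)
    obtain ⟨T, hT, hsum⟩ := rep (h L (by omega) (h1 ▸ pr_one)) 2 (by omega)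
    have h6 : T ⊆ {1} := by
      intro d hd
      have hd0 := Nat.pos_of_mem_divisors (hT hd)
      have hdle : d ≤ ∑ d ∈ T, d := single_le_sum (f := fun d => d) (fun _ _ => Nat.zero_le _) hd
      have := (Odd.of_dvd_nat hodd (Nat.dvd_of_mem_divisors (hT hd)))
      obtain ⟨c, hc⟩ := this
      simp only [mem_singleton]
      omega
    have h7 : ∑ d ∈ T, d ≤ ∑ d ∈ ({1} : Finset ℕ), d := sum_le_sum_of_subset h6
    simp only [sum_singleton] at h7
    omega
  · by_contra hnp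
    obtain ⟨L, -, -, h1, h2, h3⟩ := main n hn ha hnp
    exact h L h1 h2 h3

end Pool.Agent.Results.MP_ff748e_nt.Reduce
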